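import Pool.Agent.H.MP_ccba21_an.A
import Pool.Agent.H.MP_ccba21_an.C

set_option autoImplicit false

namespace Pool.Agent.H.MP_86d647_an

open Set Filter Topology MeasureTheory Metric Pool.Agent.H.MP_ccba21_an
open scoped RealInnerProductSpace

noncomputable def Pot (f : ℂ → ℝ) (x : ℂ) : ℝ := ∫ y, Real.log (1 / ‖x - y‖) * f y

def Adm (f : ℂ → ℝ) : Prop := MemLp f 2 volume ∧ ∃ R, 1 ≤ R ∧ ∀ y, R ≤ ‖y‖ → f y = 0

variable {f g : ℂ → ℝ}

lemma Adm.sub (hf : Adm f) (hg : Adm g) : Adm fun y => f y - g y := by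
  obtain ⟨h1, R, h2, h3⟩ := hf
  obtain ⟨h4, S, -, h5⟩ := hg
  exact ⟨h1.sub h4, max R S, le_max_of_le_left h2, fun y hy => by
    simp [h3 y (le_of_max_le_left hy), h5 y (le_of_max_le_right hy)]⟩

lemma Adm.mul (hf : Adm f) (c : ℝ) : Adm fun y => c * f y := by
  obtain ⟨h1, R, h2, h3⟩ := hf
  exact ⟨h1.const_mul c, R, h2, fun y hy => by simp [h3 y hy]⟩

lemma Adm.ind (hf : Adm f) {S : Set ℂ} (hS : MeasurableSet S) : Adm (S.indicator f) := by
  obtain ⟨h1, R, h2, h3⟩ := hf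
  exact ⟨h1.indicator hS, R, h2, fun y hy => by simp [indicator, h3 y hy]⟩

lemma Adm.of_on {S : Set ℂ} (hS : MeasurableSet S) (hb : Bornology.IsBounded S)
    (hf : MemLp f 2 (volume.restrict S)) : Adm (S.indicator f) := by
  obtain ⟨R, h1, h2⟩ := hb.subset_ball_lt 1 (0 : ℂ)
  exact ⟨(memLp_indicator_iff_restrict hS).2 hf, R, h1.le, fun y hy => indicator_of_notMem
    (fun h => by simpa [hy.not_gt] using h2 h) _⟩

lemma Adm.intOf (hf : Adm f) {k : ℂ → ℝ}
    (hk : ∀ R, 1 ≤ R → MemLp k 2 (volume.restrict (ball 0 R))) :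
    Integrable fun y => k y * f y := by
  obtain ⟨h1, R, h2, h3⟩ := hf
  refine (integrableOn_iff_integrable_of_support_subset (s := ball 0 R) fun y hy => ?_).1
    ((hk R h2).integrable_mul (h1.restrict _))
  by_contra h
  exact hy (by simp [h3 y (by simpa using h)])

lemma Adm.intC (hf : Adm f) {k : ℂ → ℝ} (hk : Continuous k) : Integrable fun y => k y * f y := by
  refine hf.intOf fun R _ => ?_
  have : IsFiniteMeasure (volume.restrict (ball (0 : ℂ) R)) :=
    isFiniteMeasure_restrict.2 measure_ball_lt_top.ne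
  obtain ⟨C, hC⟩ := (isCompact_closedBall (0 : ℂ) R).exists_bound_of_continuousOn hk.continuousOn
  exact MemLp.of_bound hk.aestronglyMeasurable C ((ae_restrict_mem measurableSet_ball).mono
    fun x hx => hC x (ball_subset_closedBall hx))

lemma Adm.int (hf : Adm f) : Integrable f := by simpa using hf.intC (k := fun _ => 1) (by fun_prop)

lemma Adm.intM (hf : Adm f) (hg : Adm g) : Integrable fun y => f y * g y :=
  hf.1.integrable_mul hg.1

lemma bsub (x : ℂ) (R : ℝ) {ρ : ℝ} (h : ‖x‖ ≤ ρ) : ball (0 : ℂ) R ⊆ ball x (R + ρ) :=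
  ball_subset (by simpa using h)

lemma Adm.intK (hf : Adm f) (x : ℂ) : Integrable fun y => Real.log (1 / ‖x - y‖) * f y :=
  hf.intOf fun R hR => (K_L2 measurableSet_ball (by linarith [norm_nonneg x]) (bsub x R le_rfl)).1

lemma Pot_sub (hf : Adm f) (hg : Adm g) (x : ℂ) :
    Pot (fun y => f y - g y) x = Pot f x - Pot g x := by
  simp only [Pot, mul_sub]
  exact integral_sub (hf.intK x) (hg.intK x)

lemma Pot_mul (c : ℝ) (x : ℂ) : Pot (fun y => c * f y) x = c * Pot f x := by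
  simp only [Pot, ← integral_const_mul, mul_left_comm]

lemma Pot_ind {S : Set ℂ} (hS : MeasurableSet S) (x : ℂ) :
    Pot (S.indicator f) x = ∫ y in S, Real.log (1 / ‖x - y‖) * f y := by
  rw [Pot, ← integral_indicator hS]
  congr 1; ext y; by_cases h : y ∈ S <;> simp [h]

lemma Pot_cont (hf : Adm f) : Continuous (Pot f) := by
  obtain ⟨h1, R, h2, h3⟩ := hf
  refine continuous_iff_continuousAt.2 fun x0 => ?_
  obtain ⟨ρ, hρ⟩ : ∃ ρ, ρ = R + ‖x0‖ + 1 := ⟨_, rfl⟩
  have := norm_nonneg x0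
  obtain ⟨κ, C, hκ, -, hK⟩ := exists_kappa (R := ρ) (by linarith)
  have h4 := h1.restrict (ball 0 ρ)
  refine ContinuousAt.congr (f := fun x => ⟪κ x, h4.toLp f⟫) (by fun_prop) ?_
  filter_upwards [isOpen_ball.mem_nhds (show x0 ∈ ball (0 : ℂ) ρ by simp; linarith)] with x hx
  rw [Pot, ← setIntegral_eq_integral_of_forall_compl_eq_zero (s := ball 0 ρ)
    fun y hy => by rw [h3 y (by simp at hy; linarith), mul_zero], L2.inner_def]
  refine integral_congr_ae ?_
  filter_upwards [hK x hx, h4.coeFn_toLp] with y hy hy'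
  simp [hy, hy', mul_comm]

lemma fub {Θ : Type} [MeasurableSpace Θ] {ν : Measure Θ} [SFinite ν] {c : Θ → ℂ}
    (hc : Measurable c) {w : Θ → ℝ} (hw : Integrable w ν) {ρ : ℝ} (h0 : 0 ≤ ρ)
    (hρ : ∀ θ, ρ ≤ ‖c θ‖ → w θ = 0) (hf : Adm f) :
    ∫ θ, Pot f (c θ) * w θ ∂ν = ∫ y, (∫ θ, Real.log (1 / ‖c θ - y‖) * w θ ∂ν) * f y ∧
      Integrable fun y => (∫ θ, Real.log (1 / ‖c θ - y‖) * w θ ∂ν) * f y := by
  have hi : Integrable (Function.uncurry fun θ y => Real.log (1 / ‖c θ - y‖) * f y * w θ)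
      (ν.prod volume) := by
    have m1 : AEStronglyMeasurable (fun p : Θ × ℂ => Real.log (1 / ‖c p.1 - p.2‖))
        (ν.prod volume) := Measurable.aestronglyMeasurable (by fun_prop)
    have m2 : AEStronglyMeasurable (fun p : Θ × ℂ => f p.2) (ν.prod volume) :=
      hf.int.aestronglyMeasurable.comp_snd
    have m3 : AEStronglyMeasurable (fun p : Θ × ℂ => w p.1) (ν.prod volume) :=
      hw.aestronglyMeasurable.comp_fst
    have hm : AEStronglyMeasurable
        (Function.uncurry fun θ y => Real.log (1 / ‖c θ - y‖) * f y * w θ) (ν.prod volume) :=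
      (m1.mul m2).mul m3
    refine (integrable_prod_iff hm).2 ⟨.of_forall fun θ => (hf.intK (c θ)).mul_const (w θ), ?_⟩
    obtain ⟨h1, R, h2, h3⟩ := hf
    obtain ⟨M, hM⟩ : ∃ M, M = (2 * Real.log (R + ρ) ^ 2 * volume.real (ball (0 : ℂ) R)
      + 56 * (R + ρ)) * ∫ y in ball (0 : ℂ) R, ‖f y‖ ^ 2 := ⟨_, rfl⟩
    refine (hw.norm.const_mul (M + 1)).mono'
      (by exact hm.norm.integral_prod_right') (.of_forall fun θ => ?_)
    simp only [Function.uncurry_apply_pair, norm_mul]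
    rw [integral_mul_const, norm_mul, norm_norm]
    rcases le_total ρ ‖c θ‖ with h | h
    · simp [hρ θ h]
    refine mul_le_mul_of_nonneg_right ?_ (norm_nonneg _)
    obtain ⟨h4, h5⟩ := K_L2 measurableSet_ball (by linarith) (bsub (c θ) R h)
    have h6 := cs h4.norm (h1.restrict _).norm
    rw [← setIntegral_eq_integral_of_forall_compl_eq_zero (s := ball 0 R)
      fun y hy => by rw [h3 y (by simpa using hy), norm_zero, mul_zero]]
    simp only [Real.norm_eq_abs, sq_abs] at h6 hM ⊢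
    have h7 := h6.trans (mul_le_mul_of_nonneg_right h5 (integral_nonneg fun _ => sq_nonneg _))
    rw [← hM, ← sq_abs] at h7
    nlinarith
  have e : ∀ y, (∫ θ, Real.log (1 / ‖c θ - y‖) * w θ ∂ν) * f y =
      ∫ θ, Real.log (1 / ‖c θ - y‖) * f y * w θ ∂ν := fun y => by
    rw [← integral_mul_const]; congr 1; ext; ring
  simp only [e, Pot, ← integral_mul_const]
  exact ⟨integral_integral_swap hi, hi.integral_prod_right⟩

lemma Pot_symm (hf : Adm f) (hg : Adm g) : ∫ x, Pot f x * g x = ∫ x, Pot g x * f x := by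
  obtain ⟨R, h2, h3⟩ := hg.2
  rw [(fub (c := fun x => x) measurable_id hg.int (by linarith) h3 hf).1]
  simp only [Pot, norm_sub_rev]

lemma mean (hf : Adm f) {x : ℂ} {r : ℝ} (hr : 0 < r) (h : ∀ᵐ y, y ∈ ball x r → 0 ≤ f y) :
    ∫ θ in (0 : ℝ)..2 * Real.pi, Pot f (circleMap x r θ) ≤ 2 * Real.pi * Pot f x := by
  have hp := Real.two_pi_pos
  obtain ⟨h1, h2⟩ := fub (ν := volume.restrict (Ioc 0 (2 * Real.pi))) (c := circleMap x r)
    (measurable_circleMap x r) (w := fun _ => 1) (integrable_const _) (ρ := ‖x‖ + r + 1)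
    (by positivity) (fun θ h => by
      have := norm_add_le x (circleMap x r θ - x)
      rw [add_sub_cancel, circleMap_sub_center, norm_circleMap_zero, abs_of_pos hr] at this
      linarith) hf
  simp only [mul_one] at h1 h2
  rw [intervalIntegral.integral_of_le hp.le, h1, Pot, ← integral_const_mul]
  refine integral_mono_ae h2 ((hf.intK x).const_mul _) ?_
  filter_upwards [h, Measure.ae_ne volume x] with y hy hy'
  have h3 := circleAverage_log_norm_sub_const_eq_log_radius_add_posLog (c := x) (a := y) hr.ne'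
  rw [Real.circleAverage, smul_eq_mul, inv_mul_eq_iff_eq_mul₀ hp.ne',
    intervalIntegral.integral_of_le hp.le] at h3
  simp only [one_div, Real.log_inv, integral_neg, h3]
  have h4 : 0 < ‖x - y‖ := norm_pos_iff.2 (sub_ne_zero.2 hy'.symm)
  have h5 : Real.log (r⁻¹ * ‖x - y‖) = Real.log ‖x - y‖ - Real.log r := by
    rw [Real.log_mul (by positivity) h4.ne', Real.log_inv]; ring
  by_cases h6 : y ∈ ball x r
  · have : Real.log (r⁻¹ * ‖x - y‖) ≤ Real.posLog (r⁻¹ * ‖x - y‖) := le_max_right _ _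
    rw [h5] at this
    nlinarith [mul_nonneg (mul_nonneg hp.le (hy h6)) (sub_nonneg.2 this)]
  · rw [mem_ball, dist_comm, dist_eq_norm, not_lt] at h6
    rw [Real.posLog_eq_log (by rwa [abs_of_pos (by positivity), le_inv_mul_iff₀ hr, mul_one]), h5]
    linarith

lemma infty (hf : Adm f) (h : ∫ y, f y ≤ 0) {ε : ℝ} (hε : 0 < ε) :
    ∃ ρ, ∀ x, ρ ≤ ‖x‖ → -ε ≤ Pot f x := by
  obtain ⟨R, h2, h3⟩ := hf.2
  obtain ⟨A, hA⟩ : ∃ A, A = ∫ y, |f y| := ⟨_, rfl⟩
  have hA0 : 0 ≤ A := hA ▸ integral_nonneg fun _ => abs_nonneg _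
  refine ⟨2 * R + 2 * R * A / ε, fun x hx => ?_⟩
  have h4 : 0 ≤ 2 * R * A / ε := by positivity
  have h5 : 0 < ‖x‖ := by linarith
  have h6 : 0 ≤ Real.log ‖x‖ := Real.log_nonneg (by linarith)
  have h7 : ∫ y, (-Real.log ‖x‖ * f y - 2 * R / ‖x‖ * |f y|) ≤ Pot f x := by
    refine integral_mono ((hf.int.const_mul _).sub (hf.int.abs.const_mul _)) (hf.intK x) fun y => ?_
    rcases le_total R ‖y‖ with h | h
    · simp [h3 y h]
    have a1 := norm_sub_le x y
    have a2 := norm_sub_norm_le x y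
    have a3 : 0 < ‖x - y‖ := by linarith
    have a4 := Real.log_le_sub_one_of_pos (div_pos a3 h5)
    have a5 := Real.log_le_sub_one_of_pos (div_pos h5 a3)
    rw [Real.log_div a3.ne' h5.ne'] at a4
    rw [Real.log_div h5.ne' a3.ne'] at a5
    have a6 : ‖x - y‖ / ‖x‖ - 1 ≤ 2 * R / ‖x‖ := by
      rw [sub_le_iff_le_add, div_add_one h5.ne', div_le_div_iff_of_pos_right h5]; linarith
    have a7 : ‖x‖ / ‖x - y‖ - 1 ≤ 2 * R / ‖x‖ := by
      rw [sub_le_iff_le_add, div_add_one h5.ne', div_le_div_iff₀ a3 h5]; nlinarith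
    have a8 : |Real.log ‖x‖ - Real.log ‖x - y‖| ≤ 2 * R / ‖x‖ := abs_le.2 ⟨by linarith, by linarith⟩
    have a9 := neg_abs_le ((Real.log ‖x‖ - Real.log ‖x - y‖) * f y)
    rw [abs_mul] at a9
    simp only [one_div, Real.log_inv]
    nlinarith [mul_le_mul_of_nonneg_right a8 (abs_nonneg (f y))]
  rw [integral_sub (hf.int.const_mul _) (hf.int.abs.const_mul _), integral_const_mul,
    integral_const_mul, ← hA] at h7
  have h8 : 2 * R / ‖x‖ * A ≤ ε := by
    rw [div_mul_eq_mul_div, div_le_iff₀ h5, ← div_le_iff₀' hε]; linarith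
  nlinarith

lemma maxp (hf : Adm f) (h : ∫ y, f y ≤ 0) {C : Set ℂ} (hC : IsClosed C)
    (h1 : ∀ x ∈ C, Pot f x < 0 → C ∈ 𝓝 x) (h2 : ∀ᵐ y, y ∈ C → Pot f y < 0 → 0 ≤ f y) :
    ∀ x ∈ C, 0 ≤ Pot f x := by
  intro x1 hx1
  by_contra! hn
  have hc := Pot_cont hf
  obtain ⟨ρ, hρ⟩ := infty hf h (ε := -Pot f x1 / 2) (by linarith)
  have hK : ∀ t, t ≤ Pot f x1 → IsCompact (C ∩ {x | Pot f x ≤ t}) := fun t ht =>
    Metric.isCompact_of_isClosed_isBounded (hC.inter (isClosed_le hc continuous_const))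
      (isBounded_ball.subset (show _ ⊆ ball (0 : ℂ) ρ from fun x hx => by
        rw [mem_ball_zero_iff]
        by_contra! h3
        have := hρ x h3
        have : Pot f x ≤ t := hx.2
        linarith))
  obtain ⟨x2, ⟨h3, h4⟩, h5⟩ := (hK _ le_rfl).exists_isMinOn ⟨x1, hx1, le_refl (Pot f x1)⟩
    hc.continuousOn
  have h6 : ∀ x ∈ C, Pot f x2 ≤ Pot f x := fun x hx => by
    rcases le_total (Pot f x) (Pot f x1) with h | h
    exacts [h5 ⟨hx, h⟩, le_trans h4 h]
  obtain ⟨x, ⟨h7, h8⟩, h9⟩ := (hK _ h4).exists_isMaxOn ⟨x2, h3, le_refl (Pot f x2)⟩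
    Complex.continuous_re.continuousOn
  have a0 : Pot f x < 0 := lt_of_le_of_lt (le_trans h8 h4) hn
  obtain ⟨r, hr, a1⟩ := nhds_basis_closedBall.mem_iff.1
    (inter_mem (h1 x h7 a0) ((isOpen_lt hc continuous_const).mem_nhds a0))
  have a2 := mean hf hr (h2.mono fun y hy hy' => hy (a1 (ball_subset_closedBall hy')).1
    (a1 (ball_subset_closedBall hy')).2)
  have a3 : ∀ θ, circleMap x r θ ∈ C := fun θ => (a1 (circleMap_mem_closedBall x hr.le θ)).1
  have a4 := intervalIntegral.integral_lt_integral_of_continuousOn_of_le_of_exists_lt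
    (f := fun _ => Pot f x2) (g := fun θ => Pot f (circleMap x r θ)) Real.two_pi_pos
    continuousOn_const (by fun_prop) (fun θ _ => h6 _ (a3 θ)) ⟨0, ⟨le_rfl, Real.two_pi_pos.le⟩, by
      by_contra! a5
      have a6 : (circleMap x r 0).re ≤ x.re := h9 ⟨a3 0, a5⟩
      simp [circleMap] at a6
      linarith⟩
  rw [intervalIntegral.integral_const, sub_zero, smul_eq_mul] at a4
  have h8 : Pot f x ≤ Pot f x2 := h8
  nlinarith [Real.two_pi_pos]

end Pool.Agent.H.MP_86d647_an
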