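import Pool.Agent.H.MP_86d647_an.A

set_option autoImplicit false

namespace Pool.Agent.H.MP_86d647_an

open Set Filter Topology MeasureTheory Metric Pool.Agent.H.MP_ccba21_an
open scoped RealInnerProductSpace

variable {f g : ℂ → ℝ} {S : Set ℂ} {τ : ℝ}

def Eig (S : Set ℂ) (τ : ℝ) (f : ℂ → ℝ) : Prop :=
  Adm f ∧ (∀ y ∉ S, f y = 0) ∧ ∀ᵐ x, x ∈ S → Pot f x = τ * f x

lemma ind_eq (h : ∀ y ∉ S, f y = 0) : S.indicator f = f :=
  indicator_eq_self.2 fun y hy => by_contra fun h' => hy (h y h')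

lemma eig_of (hS : MeasurableSet S) (hb : Bornology.IsBounded S) (h : IsEig S τ) :
    ∃ f, Eig S τ f ∧ ¬f =ᵐ[volume] 0 := by
  obtain ⟨u, h1, h2, h3⟩ := h
  refine ⟨_, ⟨Adm.of_on hS hb h1, fun y hy => indicator_of_notMem hy _, ?_⟩, fun h => h2 ?_⟩
  · filter_upwards [(ae_restrict_iff' hS).1 h3] with x hx hx'
    rw [Pot_ind hS, hx hx', indicator_of_mem hx']
  · filter_upwards [ae_restrict_of_ae h, ae_restrict_mem hS] with x hx hx'
    rwa [indicator_of_mem hx'] at hx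

lemma op (hS : MeasurableSet S) (hb : Bornology.IsBounded S) :
    ∃ T : Lp ℝ 2 (volume.restrict S) →L[ℝ] Lp ℝ 2 (volume.restrict S), IsCompactOperator T ∧
      ∀ u, ∀ᵐ x ∂volume.restrict S, T u x = Pot (S.indicator u) x := by
  obtain ⟨R, h1, h2⟩ := hb.subset_ball_lt 1 (0 : ℂ)
  obtain ⟨κ, C, hκ, hC, hK⟩ := exists_kappa h1.le
  have hmem := ae_restrict_mem (μ := volume) hS
  simp only [Pot_ind hS]
  have : IsFiniteMeasure (volume.restrict S) := isFiniteMeasure_restrict.2 hb.measure_lt_top.ne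
  generalize hμ : volume.restrict S = μ at *
  rw [← Measure.restrict_restrict_of_subset h2] at hμ
  subst hμ
  let r := LpToLpRestrictCLM ℂ ℝ ℝ (volume.restrict (ball (0 : ℂ) R)) 2 S
  obtain ⟨T, hT, hTu⟩ := exists_op _ (fun x => r (κ x)) (by fun_prop) (C := ‖r‖ * C)
    (fun x => (r.le_opNorm _).trans (mul_le_mul_of_nonneg_left (hC x) (norm_nonneg _)))
    (isCompact_closedBall 0 R) (hmem.mono fun x hx => ball_subset_closedBall (h2 hx))
  refine ⟨T, hT, fun u => ?_⟩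
  filter_upwards [hTu u, hmem] with x h3 h4
  rw [h3, L2.inner_def]
  refine integral_congr_ae ?_
  filter_upwards [ae_restrict_of_ae (hK x (h2 h4)), LpToLpRestrictCLM_coeFn ℝ S (κ x)] with y a b
  simp [r, a, b, mul_comm]

lemma Pot_congr (h : f =ᵐ[volume] g) : Pot f = Pot g := funext fun x =>
  integral_congr_ae (h.mono fun y hy => by simp only [hy])

lemma neg_dir (hS : MeasurableSet S) (hb : Bornology.IsBounded S) (hτ : τ < 0) (hf : Adm f)
    (h0 : ∀ y ∉ S, f y = 0) (h1 : ¬f =ᵐ[volume] 0)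
    (h2 : ∫ x, (Pot f x - τ * f x) * f x ≤ 0) : ∃ m ≤ τ, IsEig S m := by
  obtain ⟨T, hT, hTu⟩ := op hS hb
  have hin : ∀ u v, ⟪T u, v⟫ = ∫ x, Pot (S.indicator u) x * S.indicator v x := fun u v => by
    rw [L2.inner_def, ← setIntegral_eq_integral_of_forall_compl_eq_zero (s := S) (μ := volume)
      fun y hy => by rw [indicator_of_notMem hy, mul_zero]]
    refine integral_congr_ae ?_
    filter_upwards [hTu u, ae_restrict_mem hS] with x hx hx'
    simp [hx, hx', mul_comm]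
  have hA := fun u : Lp ℝ 2 (volume.restrict S) => Adm.of_on hS hb (Lp.memLp u)
  have h3 := hf.1.restrict S
  have h4 : S.indicator (h3.toLp f) =ᵐ[volume] f := by
    filter_upwards [(ae_restrict_iff' hS).1 h3.coeFn_toLp] with x hx
    by_cases h : x ∈ S
    · rw [indicator_of_mem h, hx h]
    · rw [indicator_of_notMem h, h0 x h]
  obtain ⟨m, hm, u, hu0, hu⟩ := neg_eig T hT (fun u v => by
    rw [real_inner_comm (T v), hin, hin, Pot_symm (hA u) (hA v)]) (neg_pos.2 hτ) (w := h3.toLp f)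
    (fun h => h1 (by
      rw [h] at h4
      filter_upwards [h4, (ae_restrict_iff' hS).1 (Lp.coeFn_zero ℝ 2 (volume.restrict S))]
        with x a b
      by_cases c : x ∈ S
      · rw [← a, indicator_of_mem c, b c]
      · exact h0 x c)) (by
      have e : ‖h3.toLp f‖ ^ 2 = ∫ x, f x * f x := by
        rw [← real_inner_self_eq_norm_sq, L2.inner_def,
          ← setIntegral_eq_integral_of_forall_compl_eq_zero (s := S) (μ := volume)
            fun y hy => by rw [h0 y hy, mul_zero]]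
        exact integral_congr_ae (h3.coeFn_toLp.mono fun x hx => by simp [hx, sq])
      simp only [sub_mul, mul_assoc] at h2
      rw [integral_sub (hf.intC (Pot_cont hf)) ((hf.intM hf).const_mul τ), integral_const_mul] at h2
      rw [hin, Pot_congr h4, e, integral_congr_ae (g := fun x => Pot f x * f x)
        (h4.mono fun x hx => by simp only [hx])]
      linarith)
  refine ⟨m, by linarith, u, Lp.memLp u, fun h => hu0 (Lp.eq_zero_iff_ae_eq_zero.2 h), ?_⟩
  filter_upwards [hTu u, Lp.coeFn_smul m u] with x h2 h3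
  rw [← Pot_ind hS, ← h2, hu, h3]; simp

lemma fred (hS : MeasurableSet S) (hb : Bornology.IsBounded S) (hτ : τ < 0) (hg : Continuous g) :
    IsEig S τ ∨ ∃ f, Adm f ∧ (∀ y ∉ S, f y = 0) ∧ ∀ᵐ x, x ∈ S → τ * f x - Pot f x = g x := by
  obtain ⟨T, hT, hTu⟩ := op hS hb
  rcases hT.hasEigenvalue_or_mem_resolventSet hτ.ne with h | h
  · obtain ⟨u, hu⟩ := h.exists_hasEigenvector
    have e : T u = τ • u := hu.apply_eq_smul
    refine .inl ⟨u, Lp.memLp u, fun h => hu.2 (Lp.eq_zero_iff_ae_eq_zero.2 h), ?_⟩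
    filter_upwards [hTu u, Lp.coeFn_smul τ u] with x h2 h3
    rw [← Pot_ind hS, ← h2, e, h3]; simp
  have : IsFiniteMeasure (volume.restrict S) := isFiniteMeasure_restrict.2 hb.measure_lt_top.ne
  obtain ⟨C, hC⟩ := hb.isCompact_closure.exists_bound_of_continuousOn hg.continuousOn
  have h1 : MemLp g 2 (volume.restrict S) := MemLp.of_bound hg.aestronglyMeasurable C
    ((ae_restrict_mem hS).mono fun x hx => hC x (subset_closure hx))
  obtain ⟨U, hU⟩ := h.exists_right_inv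
  have e : τ • U (h1.toLp g) - T (U (h1.toLp g)) = h1.toLp g := by
    simpa [Algebra.algebraMap_eq_smul_one] using DFunLike.congr_fun hU (h1.toLp g)
  refine .inr ⟨_, Adm.of_on hS hb (Lp.memLp (U (h1.toLp g))), fun y hy => indicator_of_notMem hy _,
    (ae_restrict_iff' hS).1 ?_⟩
  filter_upwards [hTu (U (h1.toLp g)), Lp.coeFn_smul τ (U (h1.toLp g)), h1.coeFn_toLp,
    Lp.coeFn_sub (τ • U (h1.toLp g)) (T (U (h1.toLp g))), ae_restrict_mem hS] with x a b c d k
  rw [← a, ← c, ← e, indicator_of_mem k, e, ← smul_eq_mul, ← Pi.smul_apply, ← b, ← Pi.sub_apply, ← d,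
    e]

lemma Eig.mul (h : Eig S τ f) (c : ℝ) : Eig S τ fun y => c * f y :=
  ⟨h.1.mul c, fun y hy => by simp [h.2.1 y hy], h.2.2.mono fun x hx hx' => by
    rw [Pot_mul, hx hx']; ring⟩

lemma Eig.nonneg (h : Eig S τ f) (hτ : τ < 0) (h0 : 0 ≤ ∫ y, f y) : ∀ᵐ y, 0 ≤ f y := by
  have h1 := h.mul (-1)
  have h2 := maxp h1.1 (by rw [integral_const_mul]; linarith) isClosed_univ (fun _ _ _ => univ_mem)
    (h1.2.2.mono fun y hy _ h3 => by
      by_cases c : y ∈ S
      · rw [hy c] at h3; nlinarith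
      · exact (h1.2.1 y c).ge)
  filter_upwards [h1.2.2] with y hy
  by_cases c : y ∈ S
  · have := h2 y trivial
    rw [hy c] at this; nlinarith
  · exact (h.2.1 y c).ge

lemma eig_pos (hS : MeasurableSet S) (hb : Bornology.IsBounded S) (h : IsEig S τ) (hτ : τ < 0) :
    ∃ f, Eig S τ f ∧ ∫ y, f y = 1 ∧ ∀ᵐ y, 0 ≤ f y := by
  obtain ⟨f, h1, h2⟩ := eig_of hS hb h
  have h3 : ∫ y, f y ≠ 0 := fun h => h2 (by
    filter_upwards [h1.nonneg hτ h.ge, (h1.mul (-1)).nonneg hτ (by simp [integral_neg, h])]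
      with y a b
    exact le_antisymm (show f y ≤ 0 by linarith) a)
  have h4 : ∫ y, (∫ y, f y)⁻¹ * f y = 1 := by rw [integral_const_mul, inv_mul_cancel₀ h3]
  exact ⟨_, h1.mul _, h4, (h1.mul _).nonneg hτ (h4 ▸ zero_le_one)⟩

lemma Eig.pair (h : Eig S τ f) (h0 : ∀ y ∉ S, g y = 0) :
    ∫ x, Pot f x * g x = τ * ∫ x, f x * g x := by
  rw [← integral_const_mul]
  refine integral_congr_ae (h.2.2.mono fun x hx => ?_)
  by_cases c : x ∈ S
  · simp only [hx c, mul_assoc]
  · simp [h0 x c]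

lemma sq_pos (hf : Adm f) (h : ∫ y, f y = 1) : 0 < ∫ y, f y * f y := by
  refine lt_of_le_of_ne (integral_nonneg fun _ => mul_self_nonneg _) fun h1 => ?_
  have := (integral_eq_zero_iff_of_nonneg (fun _ => mul_self_nonneg _) (hf.intM hf)).1 h1.symm
  rw [integral_congr_ae (g := fun _ => 0) (this.mono fun y hy => mul_self_eq_zero.1 hy)] at h
  simp at h

lemma uniq (hS : MeasurableSet S) (hb : Bornology.IsBounded S) {s : ℝ} (h : IsEig S τ)
    (h' : IsEig S s) (hs : s < 0) : s ≤ τ := by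
  by_contra! hl
  obtain ⟨f, h1, h2, h3⟩ := eig_pos hS hb h (hl.trans hs)
  obtain ⟨g, h4, h5, h6⟩ := eig_pos hS hb h' hs
  have h7 := maxp (h4.1.sub h1.1) (by rw [integral_sub h4.1.int h1.1.int]; linarith) isClosed_univ
    (fun _ _ _ => univ_mem) (by
      filter_upwards [h1.2.2, h4.2.2, h6] with y a b c _ d
      by_cases e : y ∈ S
      · rw [Pot_sub h4.1 h1.1, a e, b e] at d; nlinarith
      · simp [h1.2.1 y e, h4.2.1 y e])
  have h8 := Pot_symm h1.1 h4.1
  rw [h1.pair h4.2.1, h4.pair h1.2.1] at h8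
  simp only [mul_comm (g _) (f _)] at h8
  have h9 : ∫ x, f x * g x = 0 := by
    by_contra h
    exact hl.ne (mul_right_cancel₀ h h8)
  have : 0 ≤ ∫ x, Pot (fun y => g y - f y) x * g x :=
    integral_nonneg_of_ae (h6.mono fun y hy => mul_nonneg (h7 y trivial) hy)
  simp only [Pot_sub h4.1 h1.1, sub_mul] at this
  rw [integral_sub (h4.1.intC (Pot_cont h4.1)) (h4.1.intC (Pot_cont h1.1)), h1.pair h4.2.1,
    h4.pair h4.2.1, h9] at this
  nlinarith [sq_pos h4.1 h5]

lemma fekete (h : Eig S τ f) (h1 : ∫ y, f y = 1) (h2 : ∀ᵐ y, 0 ≤ f y) {E : ℝ}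
    (hE : E = -∫ x, Pot f x * f x) (k : ℕ) : ∀ m : ℝ, ∃ z : Fin k → ℂ, (∀ i, z i ∈ S) ∧
      0 < vp z ∧ (k + m) * (k + m - 1) / 2 * E ≤
        Real.log (vp z) - m * ∑ i, Pot f (z i) + m * (m - 1) / 2 * E := by
  induction k with
  | zero => exact fun m => ⟨Fin.elim0, fun i => i.elim0, by simp [vp], by simp [vp]⟩
  | succ k ih =>
    intro m
    obtain ⟨z, h3, h4, h5⟩ := ih (m + 1)
    have : ∃ x ∈ S, (∀ i, x ≠ z i) ∧
        ∑ i, Real.log (1 / ‖z i - x‖) + m * Pot f x ≤ ∑ i, Pot f (z i) - m * E := by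
      by_contra! hn
      obtain ⟨φ, hφ⟩ : ∃ φ : ℂ → ℝ, φ = fun x => ∑ i, Real.log (1 / ‖z i - x‖) * f x +
        m * (Pot f x * f x) - (∑ i, Pot f (z i) - m * E) * f x := ⟨_, rfl⟩
      have e : ∀ x, φ x = (∑ i, Real.log (1 / ‖z i - x‖) + m * Pot f x -
          (∑ i, Pot f (z i) - m * E)) * f x := fun x => by
        rw [hφ, sub_mul, add_mul, Finset.sum_mul, mul_assoc]
      have i1 := integrable_finsetSum Finset.univ fun i _ => h.1.intK (z i)
      have i2 := (h.1.intC (Pot_cont h.1)).const_mul m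
      have i3 := h.1.int.const_mul (∑ i, Pot f (z i) - m * E)
      have a1 : ∫ x, φ x = 0 := by
        rw [hφ]
        erw [integral_sub (i1.add i2) i3, integral_add i1 i2]
        rw [integral_const_mul,
          integral_const_mul, integral_finsetSum _ fun i _ => h.1.intK (z i), h1, hE]
        simp [Pot]
      have a2 : ∀ᵐ x : ℂ, ∀ i, x ≠ z i := ae_all_iff.2 fun i => Measure.ae_ne _ _
      have a3 := (integral_eq_zero_iff_of_nonneg_ae (f := φ) (by
        filter_upwards [a2, h2] with x a b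
        by_cases c : x ∈ S
        · rw [e]; exact mul_nonneg (sub_nonneg.2 (hn x c a).le) b
        · simp [e, h.2.1 x c]) (hφ ▸ (i1.add i2).sub i3)).1 a1
      rw [integral_congr_ae (g := fun _ => 0) (by
        filter_upwards [a2, a3] with x a b
        by_cases c : x ∈ S
        · rw [e] at b
          exact (mul_eq_zero.1 b).resolve_left (sub_pos.2 (hn x c a)).ne'
        · exact h.2.1 x c)] at h1
      simp at h1
    obtain ⟨x, a1, a2, a3⟩ := this
    have a4 : ∀ i, 0 < ‖x - z i‖ := fun i => norm_pos_iff.2 (sub_ne_zero.2 (a2 i))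
    have e : vp (Fin.cons x z : Fin (k + 1) → ℂ) = (∏ i, ‖x - z i‖) * vp z := by
      simp [vp, Fin.prod_univ_succ, Fin.prod_Ioi_zero, Fin.prod_Ioi_succ]
    have a5 : 0 < ∏ i, ‖x - z i‖ := Finset.prod_pos fun i _ => a4 i
    refine ⟨Fin.cons x z, fun i => by refine Fin.cases a1 h3 i, e ▸ mul_pos a5 h4, ?_⟩
    rw [e, Real.log_mul a5.ne' h4.ne', Real.log_prod fun i _ => (a4 i).ne', Fin.sum_univ_succ]
    simp only [one_div, Real.log_inv, Finset.sum_neg_distrib, norm_sub_rev (z _) x] at a3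
    simp only [Fin.cons_zero, Fin.cons_succ]
    push_cast
    linarith

lemma td_gt (hS : MeasurableSet S) (hb : Bornology.IsBounded S) (h : IsEig S τ) (hτ : τ < 0)
    {d : ℕ → ℝ} {R : ℝ} (hd : ∀ n, 2 ≤ n → d n ∈ upperBounds (fk (closure S) n))
    (hR : Tendsto d atTop (𝓝 R)) : 1 < R := by
  obtain ⟨f, h1, h2, h3⟩ := eig_pos hS hb h hτ
  obtain ⟨E, hE⟩ : ∃ E, E = -∫ x, Pot f x * f x := ⟨_, rfl⟩
  have h4 : 0 < E := by rw [hE, h1.pair h1.2.1]; nlinarith [sq_pos h1.1 h2]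
  refine (Real.one_lt_exp_iff.2 h4).trans_le
    (ge_of_tendsto hR ((eventually_ge_atTop 2).mono fun n hn => ?_))
  obtain ⟨z, a1, a2, a3⟩ := fekete h1 h2 h3 hE n 0
  refine le_trans ?_ (hd n hn ⟨z, fun i => subset_closure (a1 i), rfl⟩)
  have : (2 : ℝ) ≤ n := by exact_mod_cast hn
  rw [Real.rpow_def_of_pos a2, Real.exp_le_exp, ← mul_div_assoc, le_div_iff₀ (by nlinarith)]
  linarith

end Pool.Agent.H.MP_86d647_an
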