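import Pool.Agent.H.MP_86d647_an.B

set_option autoImplicit false

namespace Pool.Agent.H.MP_86d647_an

open Set Filter Topology MeasureTheory Metric Pool.Agent.H.MP_ccba21_an

lemma pol {σ : ℂ → ℂ} (hm : MeasurePreserving σ volume volume) (hi : ∀ x, σ (σ x) = x)
    (hd : ∀ x y, ‖σ x - σ y‖ = ‖x - y‖) {H C Ω P : Set ℂ} (hH : IsOpen H) (hC : IsClosed C)
    (hHC : H ⊆ C) (h1 : ∀ x ∈ C, x ∉ H → σ x = x) (h2 : ∀ x ∈ H, σ x ∉ C)
    (hΩ : MeasurableSet Ω) (hb : Bornology.IsBounded Ω) {τ : ℝ} (hτ : τ < 0)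
    (hP : P = ((Ω ∪ σ ⁻¹' Ω) ∩ H) ∪ ((Ω ∩ σ ⁻¹' Ω) \ H)) (h : IsEig P τ) :
    ∃ m ≤ τ, IsEig Ω m := by
  have ms := hm.measurable
  have hI : ∀ f : ℂ → ℝ, ∫ x, f (σ x) = ∫ x, f x := fun f =>
    hm.integral_comp (MeasurableEquiv.ofInvolutive σ hi ms).measurableEmbedding f
  have hA : ∀ {f : ℂ → ℝ}, Adm f → Adm fun y => f (σ y) := fun ⟨a, R, b, c⟩ =>
    ⟨a.comp_measurePreserving hm, R + ‖σ 0‖, by linarith [norm_nonneg (σ 0)], fun y hy => c _ (by
      have := norm_sub_le (σ y) (σ 0)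
      rw [hd, sub_zero] at this; linarith)⟩
  have hS : ∀ (f : ℂ → ℝ) x, Pot (fun y => f (σ y)) x = Pot f (σ x) := fun f x => by
    rw [Pot, Pot, ← hI fun y => Real.log (1 / ‖σ x - y‖) * f y]; simp only [hd]
  have cs : Continuous σ := (Isometry.of_dist_eq fun x y => by simp [dist_eq_norm, hd]).continuous
  have hb' : Bornology.IsBounded (σ ⁻¹' Ω) := by
    obtain ⟨R, hR⟩ := isBounded_iff.1 hb
    exact isBounded_iff.2 ⟨R, fun x hx y hy => by simpa [dist_eq_norm, hd] using hR hx hy⟩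
  obtain ⟨v, v1, v2, v3⟩ := eig_pos (hP ▸ ((hΩ.union (ms hΩ)).inter hH.measurableSet).union
    ((hΩ.inter (ms hΩ)).diff hH.measurableSet)) (hP ▸ ((hb.union hb').subset inter_subset_left).union
      (hb.subset fun x hx => hx.1.1)) h hτ
  obtain ⟨w, hw⟩ : ∃ w, w = Ωᶜ.indicator v := ⟨_, rfl⟩
  have w1 : Adm w := hw ▸ v1.1.ind hΩ.compl
  have w2 : ∀ y ∈ Ω, w y = 0 := fun y hy => hw ▸ indicator_of_notMem (notMem_compl_iff.2 hy) _
  have w3 : ∀ y ∉ Ω, w y = v y := fun y hy => hw ▸ indicator_of_mem hy _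
  have w4 : ∀ y, y ∉ Ω ∨ y ∈ C → w (σ y) = 0 := fun y hy => by
    by_cases c : σ y ∈ Ω
    · exact w2 _ c
    rw [w3 _ c]
    refine v1.2.1 _ fun h => ?_
    simp only [hP, mem_union, mem_inter_iff, Set.mem_sdiff, mem_preimage, hi, c, false_or, false_and,
      or_false] at h
    exact hy.elim (fun a => a h.1) fun a => h2 _ h.2 (by rwa [hi])
  have cw := Pot_cont w1
  have mD := hΩ.inter (ms hΩ)
  rcases fred mD (hb.subset inter_subset_left) hτ (g := fun x => Pot w (σ x) - Pot w x)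
    (by fun_prop) with h | ⟨h, g1, g2, g3⟩
  · obtain ⟨e, e1, e2⟩ := eig_of mD (hb.subset inter_subset_left) h
    refine neg_dir hΩ hb hτ e1.1 (fun y hy => e1.2.1 y fun h => hy h.1) e2
      (integral_nonpos_of_ae (e1.2.2.mono fun x hx => ?_))
    by_cases c : x ∈ Ω ∩ σ ⁻¹' Ω
    · simp [hx c]
    · simp [e1.2.1 x c]
  have g4 : ∀ y ∉ Ω ∩ σ ⁻¹' Ω, h (σ y) = 0 := fun y hy => g2 _ fun c =>
    hy ⟨by simpa [hi] using c.2, c.1⟩
  obtain ⟨k, hk⟩ : ∃ k : ℂ → ℝ, k = fun y => w y - 2⁻¹ * h y := ⟨_, rfl⟩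
  have k1 : Adm k := hk ▸ w1.sub (g1.mul _)
  have k2 : ∀ x, Pot k x = Pot w x - 2⁻¹ * Pot h x := fun x => by
    rw [hk, Pot_sub w1 (g1.mul _), Pot_mul]
  obtain ⟨z, hz⟩ : ∃ z : ℂ → ℝ, z = fun y => k y - k (σ y) := ⟨_, rfl⟩
  have z1 : Adm z := hz ▸ k1.sub (hA k1)
  have z2 : ∀ x, Pot z x = Pot k x - Pot k (σ x) := fun x => by
    rw [hz, Pot_sub k1 (hA k1), hS]
  have z3 : ∫ y, z y = 0 := by
    rw [hz, integral_sub k1.int (hA k1).int, hI, sub_self]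
  have z4 : ∀ᵐ x, x ∈ Ω ∩ σ ⁻¹' Ω → Pot z x = τ * z x := by
    filter_upwards [g3, hm.quasiMeasurePreserving.ae g3] with x a b c
    have a := a c
    have b := b ⟨c.2, by simpa [hi] using c.1⟩
    rw [hi] at b
    rw [z2, k2, k2]
    simp only [hz, hk, w2 x c.1, w2 _ c.2]
    linarith
  have z5 : ∀ y ∉ Ω ∩ σ ⁻¹' Ω, y ∉ Ω ∨ y ∈ C → z y = w y := fun y a b => by
    simp [hz, hk, g2 y a, g4 y a, w4 y b]
  have z6 := maxp z1 z3.le hC (fun x a b => mem_of_superset (hH.mem_nhds (by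
    by_contra c
    rw [z2, h1 x a c, sub_self] at b
    exact lt_irrefl _ b)) hHC) (by
      filter_upwards [z4, v3] with y a b c d
      by_cases e : y ∈ Ω ∩ σ ⁻¹' Ω
      · rw [a e] at d; nlinarith
      · rw [z5 y e (.inr c), hw]; exact indicator_apply_nonneg fun _ => b)
  have iG : ∀ {f g : ℂ → ℝ}, Adm f → Adm g → Integrable fun x => (Pot f x - τ * f x) * g x :=
    fun a b => by
      simp only [sub_mul, mul_assoc]
      exact (b.intC (Pot_cont a)).sub ((a.intM b).const_mul τ)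
  have eG : ∀ {f g : ℂ → ℝ}, Adm f → Adm g → ∫ x, (Pot f x - τ * f x) * g x =
      (∫ x, Pot f x * g x) - τ * ∫ x, f x * g x := fun a b => by
    simp only [sub_mul, mul_assoc]
    rw [integral_sub (b.intC (Pot_cont a)) ((a.intM b).const_mul τ), integral_const_mul]
  refine neg_dir hΩ hb hτ (v1.1.sub z1) (fun y hy => by
    rw [z5 y (fun h => hy h.1) (.inl hy), w3 y hy, sub_self]) (fun h => ?_) ?_
  · have := integral_congr_ae h
    rw [integral_sub v1.1.int z1.int, v2, z3] at this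
    simp at this
  have q1 : ∫ x, (Pot v x - τ * v x) * v x = 0 := by rw [eG v1.1 v1.1, v1.pair v1.2.1, sub_self]
  have q2 : ∫ x, (Pot v x - τ * v x) * z x = ∫ x, (Pot z x - τ * z x) * v x := by
    rw [eG v1.1 z1, eG z1 v1.1, Pot_symm v1.1 z1]; simp only [mul_comm (v _)]
  have q3 : ∫ x, (Pot z x - τ * z x) * z x = 2 * ∫ x, (Pot z x - τ * z x) * k x := by
    have : ∫ x, (Pot z x - τ * z x) * k (σ x) = -∫ x, (Pot z x - τ * z x) * k x := by
      rw [← hI, ← integral_neg]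
      congr 1; ext x
      rw [z2, z2]; simp only [hz, hi]; ring
    rw [two_mul, ← sub_neg_eq_add, ← this, ← integral_sub (iG z1 k1) (iG z1 (hA k1))]
    congr 1; ext x
    rw [← mul_sub, hz]
  have q4 : ∫ x, (Pot z x - τ * z x) * k x ≤ ∫ x, (Pot z x - τ * z x) * v x := by
    refine integral_mono_ae (iG z1 k1) (iG z1 v1.1) ?_
    filter_upwards [z4, v3] with y a b
    by_cases e : y ∈ Ω ∩ σ ⁻¹' Ω
    · simp [a e]
    by_cases c : y ∈ Ω
    · by_cases d : y ∈ P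
      · have d : y ∈ C := hHC ((hP ▸ d).elim (fun h => h.2) fun h => absurd h.1 e)
        simpa [hk, g2 y e, z5 y e (.inr d), w2 y c] using mul_nonneg (z6 y d) b
      · simp [hk, g2 y e, w2 y c, v1.2.1 y d]
    · simp [hk, g2 y e, w3 y c]
  have q5 : ∫ x, (Pot (fun y => v y - z y) x - τ * (v x - z x)) * (v x - z x) =
      ((∫ x, (Pot v x - τ * v x) * v x) - ∫ x, (Pot v x - τ * v x) * z x) -
      ((∫ x, (Pot z x - τ * z x) * v x) - ∫ x, (Pot z x - τ * z x) * z x) := by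
    rw [← integral_sub (iG v1.1 v1.1) (iG v1.1 z1), ← integral_sub (iG z1 v1.1) (iG z1 z1)]
    erw [← integral_sub ((iG v1.1 v1.1).sub (iG v1.1 z1)) ((iG z1 v1.1).sub (iG z1 z1))]
    congr 1; ext x
    simp only [Pot_sub v1.1 z1, Pi.sub_apply]; ring
  linarith

lemma exists_td {E : Set ℂ} (hE : IsCompact E) (hn : E.Nonempty) :
    ∃ (d : ℕ → ℝ) (R : ℝ), (∀ n, 2 ≤ n → IsGreatest (fk E n) (d n)) ∧ Tendsto d atTop (𝓝 R) := by
  obtain ⟨x, hx⟩ := hn
  have h : ∀ n, ∃ d, IsGreatest (fk E (n + 2)) d := fun n =>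
    (fk_compact hE (n + 1)).exists_isGreatest ⟨_, fun _ => x, fun _ => hx, rfl⟩
  choose d hd using h
  have h2 : Antitone d := antitone_nat_of_succ_le fun n => fk_step (hd n).2 (hd (n + 1)).1
  have h3 := tendsto_atTop_ciInf h2 ⟨0, by
    rintro _ ⟨n, rfl⟩
    obtain ⟨z, -, h⟩ := (hd n).1
    exact h ▸ Real.rpow_nonneg (vp_nonneg z) _⟩
  refine ⟨fun n => d (n - 2), _, fun n hn => ?_, h3.comp (tendsto_sub_atTop_nat 2)⟩
  obtain ⟨k, rfl⟩ := Nat.exists_eq_add_of_le' hn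
  exact hd k

end Pool.Agent.H.MP_86d647_an
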